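import Pool.Agent.J4.H35.GC.Odd
import Pool.Agent.J4.H35.GC.Even
import Pool.Agent.J4.H35.GC.Tra
import Pool.Agent.J4.H35.GC.Lsq
import Pool.Agent.J4.H45.GW.Cnt

/-!
# Quadratic twists with nonzero central values for the forms of all weights at once

Let `E_D` be the quadratic twist by `D` of `X_0(49)` and `ψ_D` its Hecke character over
`K = ℚ(√-7)`. For `k > 0` let `f_k` be the newform of weight `2k` of the Hecke character
`ψ_1^(2k-1)`; the newform of `ψ_D^(2k-1)` is the one of its quadratic twist by the character `χ_D` of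
`ℚ(√D)`. We consider two classes of squarefree `D = 1` modulo `4`:
* the negative class: `D = -q p_1 ⋯ p_r`, `q = 3 mod 8`, `p_i = 1 mod 4` different primes inert in `K`;
* the positive class: `D = p_1 ⋯ p_r`, `r` even, `p_i = 5 mod 8` different primes inert in `K`.

Theorem. For all `D` of the negative (positive) class and ALL even (odd) `k > 0` the `L`-function of
`f_k ⊗ χ_D` is entire and not zero at the centre; and so is the one of the base change of this form to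
every field `F = ℚ(√d_1, …, √d_n)` where the `d_i` are products of primes `1 mod 4` inert in `K` (are
`1 mod 8` and products of primes `5 mod 8` inert in `K`). For every `D` of one of the classes and every
finite set `S` of primes there are at least `c X / (log X)^(3/4)` (at least `c X / (log X)^(7/8)`)
numbers `D'`, `|D'| ≤ X`, in the same class, such that `χ_D'` has the same components as `χ_D` at
the real place and at all the places of `S`. If the `d_i` are composed of an even number of primes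
`5 mod 8` inert in `K` and of primes `1 mod 8` split in `K`, then for at least `c X / (log X)^(3/4)`
numbers `D ≤ X` of the same kind the `L`-functions over `F` are not zero at the centre for ALL odd `k`.

The nonvanishing is from the theorems on the weights `2k`, `k` even and `k` odd, in the folder of
`MP_ec4e4b_nt`; the counts are from Mertens' theorem in progressions.
-/

set_option autoImplicit false

namespace Pool.Agent.Results.MP_50bb2e_nt.AllWeightsTwists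

open Filter Topology

/-- The prime `p` is inert in `K = ℚ(√-7)`. -/
def Inert (p : ℕ) : Prop := p % 7 = 3 ∨ p % 7 = 5 ∨ p % 7 = 6

/-- The negative class: `D = -q r` with a prime `q = 3 mod 8` inert in `K` and `r` squarefree, all of
whose prime factors are `1 mod 4` and inert in `K`. -/
def NegClass (D : ℤ) : Prop := ∃ q r : ℕ, q.Prime ∧ q % 8 = 3 ∧ Inert q ∧ Squarefree r ∧
  (∀ p : ℕ, p.Prime → p ∣ r → p % 4 = 1 ∧ Inert p) ∧ D = -((q * r : ℕ) : ℤ)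

/-- The positive class: `D = 1 mod 8` is positive and squarefree and all its prime factors are
`5 mod 8` and inert in `K`. -/
def PosClass (D : ℤ) : Prop := ∃ m : ℕ, Squarefree m ∧ m % 8 = 1 ∧
  (∀ p : ℕ, p.Prime → p ∣ m → p % 8 = 5 ∧ Inert p) ∧ D = (m : ℤ)

/-- The mixed class: `m = 1 mod 8` is squarefree and its prime factors are `1 mod 8` and split in `K`
or `5 mod 8` and inert in `K`. -/
def Mixed (m : ℕ) : Prop := Squarefree m ∧ m % 8 = 1 ∧ ∀ p : ℕ, p.Prime → p ∣ m →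
  (p % 8 = 1 ∧ (p % 7 = 1 ∨ p % 7 = 2 ∨ p % 7 = 4)) ∨ (p % 8 = 5 ∧ Inert p)

/-- No product of some of the `d_i` is a square: `ℚ(√d_1, …, √d_n)` has degree `2 ^ n`. -/
def Ind {n : ℕ} (d : Fin n → ℕ) : Prop :=
  ∀ T : Finset (Fin n), T.Nonempty → ¬ IsSquare (∏ i ∈ T, d i)

/-- The number of the solutions modulo `p` of the equation
`y² + x y = x³ - ((3 D + 1) / 4) x² - 2 D² x - D³` of the curve `E_D`, for `D = 1` modulo `4`: the
quadratic twist by `D` of `X_0(49) : y² + x y = x³ - x² - 2 x - 1`. -/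
noncomputable def points (D : ℤ) (p : ℕ) : ℕ :=
  Nat.card {P : ZMod p × ZMod p // P.2 ^ 2 + P.1 * P.2 = P.1 ^ 3 -
    (((3 * D + 1) / 4 : ℤ) : ZMod p) * P.1 ^ 2 - 2 * (D : ZMod p) ^ 2 * P.1 - (D : ZMod p) ^ 3}

/-- The trace of the Frobenius element of `E_D` at the prime `p`, and zero if `p` divides `7 D`. -/
noncomputable def trace (D : ℤ) (p : ℕ) : ℤ := if (p : ℤ) ∣ 7 * D then 0 else (p : ℤ) - points D p

/-- The number `p`, and zero if `p` divides `7 D`. -/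
def det (D : ℤ) (p : ℕ) : ℤ := if (p : ℤ) ∣ 7 * D then 0 else p

/-- The sum `α ^ n + β ^ n` for the roots `α`, `β` of `X² - a X + e`. -/
def powerSum (a e : ℤ) : ℕ → ℤ
  | 0 => 2
  | 1 => a
  | n + 2 => a * powerSum a e (n + 1) - e * powerSum a e n

/-- The entire function `Λ` is the `L`-function of the newform of weight `2k` of the Hecke character
`ψ_D^(2k-1)`, as an Euler product for `Re s > k + 1/2`. The centre is `s = k`. -/
def IsL (D : ℤ) (k : ℕ) (Λ : ℂ → ℂ) : Prop :=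
  Differentiable ℂ Λ ∧ ∀ s : ℂ, (k : ℝ) + 1 / 2 < s.re → HasProd (fun p : Nat.Primes =>
    (1 - (powerSum (trace D p) (det D p) (2 * k - 1) : ℂ) * ((p : ℕ) : ℂ) ^ (-s) +
      (det D p : ℂ) ^ (2 * k - 1) * (((p : ℕ) : ℂ) ^ (-s)) ^ 2)⁻¹) (Λ s)

/-- For `d_1, …, d_n` independent modulo squares, `Λ` is the `L`-function over
`F = ℚ(√d_1, …, √d_n)` of the newform of `ψ_D^(2k-1)`: it is the product of the `L`-functions over
`ℚ` of the newforms of the `ψ_E^(2k-1)`, where `E` is the squarefree part of `D ∏_{i ∈ T} d_i`, over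
the subsets `T` of `{1, …, n}`, which correspond to the characters of `Gal(F/ℚ)`. -/
def IsLOver (D : ℤ) (k : ℕ) {n : ℕ} (d : Fin n → ℕ) (Λ : ℂ → ℂ) : Prop :=
  ∃ (E : Finset (Fin n) → ℤ) (L : Finset (Fin n) → ℂ → ℂ),
    (∀ T, Squarefree (E T) ∧ (∃ a : ℕ, a ≠ 0 ∧ D * ((∏ i ∈ T, d i : ℕ) : ℤ) = E T * (a : ℤ) ^ 2) ∧
      IsL (E T) k (L T)) ∧
    ∀ s, Λ s = ∏ T, L T s

/-- The characters `χ_D` and `χ_D'` have the same component at the prime `p`: `D' / D` is a square of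
the field of `p`-adic numbers. -/
def SameAt (p : ℕ) (D D' : ℤ) : Prop :=
  ∀ _ : Fact p.Prime, ∃ z : ℚ_[p], z ≠ 0 ∧ (D' : ℚ_[p]) = D * z ^ 2

/-- At least `c X / (log X)^e` numbers `D` with `|D| ≤ X` have the property `P`, for a constant `c > 0`
and all sufficiently large `X`. -/
def Many (e : ℝ) (P : ℤ → Prop) : Prop := ∃ c : ℝ, 0 < c ∧ ∀ᶠ X : ℕ in atTop,
  c * (X / Real.log X ^ e) ≤ ({D : ℤ | P D ∧ D.natAbs ≤ X}.ncard : ℝ)

/-- The `L`-function over `F = ℚ(√d_1, …, √d_n)` of the newform of `ψ_D^(2k-1)` is entire and not zero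
at the centre. -/
def NonzeroOver (D : ℤ) (k : ℕ) {n : ℕ} (d : Fin n → ℕ) : Prop :=
  ∃ Λ : ℂ → ℂ, IsLOver D k d Λ ∧ Differentiable ℂ Λ ∧ Λ k ≠ 0

/-! ### The proof -/

section proof

open Pool.Agent.J4.H35.GC
open Pool.Agent.Results.MP_ec4e4b_nt

lemma ps_o (a e : ℤ) : ∀ n : ℕ, powerSum a e n = AllOddWeights.powerSum a e n
  | 0 => rfl
  | 1 => rfl
  | n + 2 => by rw [powerSum, AllOddWeights.powerSum, ps_o a e (n + 1), ps_o a e n]

lemma ps_e (a e : ℤ) : ∀ n : ℕ, powerSum a e n = AllEvenWeights.powerSum a e n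
  | 0 => rfl
  | 1 => rfl
  | n + 2 => by rw [powerSum, AllEvenWeights.powerSum, ps_e a e (n + 1), ps_e a e n]

lemma pts_o {D : ℕ} (hD : D % 4 = 1) (p : ℕ) : points (D : ℤ) p = AllOddWeights.points D p := by
  unfold points AllOddWeights.points
  have h : ((3 * (D : ℤ) + 1) / 4) = (((3 * D + 1) / 4 : ℕ) : ℤ) := by omega
  rw [h]
  simp only [Int.cast_natCast]

lemma pts_e {m : ℕ} (hm : m % 4 = 3) (p : ℕ) :
    points (-(m : ℤ)) p = AllEvenWeights.points m p := by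
  unfold points AllEvenWeights.points
  have h : ((3 * (-(m : ℤ)) + 1) / 4) = -(((3 * m - 1) / 4 : ℕ) : ℤ) := by omega
  rw [h]
  generalize (3 * m - 1) / 4 = c
  refine Nat.card_congr (Equiv.subtypeEquivRight fun P => ?_)
  push_cast
  constructor
  · intro h
    linear_combination h
  · intro h
    linear_combination h

lemma dvd_o (D p : ℕ) : ((p : ℤ) ∣ 7 * (D : ℤ)) ↔ p ∣ 7 * D := by
  rw [← Int.natCast_dvd_natCast]
  push_cast
  rfl

lemma dvd_e (m p : ℕ) : ((p : ℤ) ∣ 7 * (-(m : ℤ))) ↔ p ∣ 7 * m := by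
  rw [mul_neg, dvd_neg, dvd_o]

lemma isL_o {D k : ℕ} (hD : D % 4 = 1) {Λ : ℂ → ℂ} :
    AllOddWeights.IsL D k Λ ↔ IsL (D : ℤ) k Λ := by
  unfold AllOddWeights.IsL IsL
  have e1 : ∀ p, trace (D : ℤ) p = AllOddWeights.trace D p := fun p => by
    unfold trace AllOddWeights.trace
    simp only [dvd_o, pts_o hD]
  have e2 : ∀ p, det (D : ℤ) p = AllOddWeights.det D p := fun p => by
    unfold det AllOddWeights.det
    simp only [dvd_o]
  simp only [e1, e2, ps_o]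

lemma isL_e {m k : ℕ} (hm : m % 4 = 3) {Λ : ℂ → ℂ} :
    AllEvenWeights.IsL m k Λ ↔ IsL (-(m : ℤ)) k Λ := by
  unfold AllEvenWeights.IsL IsL
  have e1 : ∀ p, trace (-(m : ℤ)) p = AllEvenWeights.trace m p := fun p => by
    unfold trace AllEvenWeights.trace
    simp only [dvd_e, pts_e hm]
  have e2 : ∀ p, det (-(m : ℤ)) p = AllEvenWeights.det m p := fun p => by
    unfold det AllEvenWeights.det
    simp only [dvd_e]
  simp only [e1, e2, ps_e]

lemma mod8_sq {E a N : ℕ} (h : N = E * a ^ 2) (hN : N % 8 = 1) : E % 8 = 1 := by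
  subst h
  have ha2 : a % 2 = 1 := by
    by_contra h
    have h0 : a % 2 = 0 := by omega
    have h1 : 2 ∣ E * a ^ 2 := ((Nat.dvd_of_mod_eq_zero h0).trans
      (dvd_pow_self a (by norm_num))).mul_left E
    omega
  have h3 : a % 8 = 1 ∨ a % 8 = 3 ∨ a % 8 = 5 ∨ a % 8 = 7 := by omega
  have h4 : a ^ 2 % 8 = 1 := by
    rcases h3 with h | h | h | h <;> rw [Nat.pow_mod, h]
  rw [Nat.mul_mod, h4, mul_one, Nat.mod_mod] at hN
  exact hN

/-- from the `L`-functions of the earlier theorem -/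
theorem over_o {M n k : ℕ} {d : Fin n → ℕ} {Λ : ℂ → ℂ} (h : AllOddWeights.IsLOver M k d Λ)
    (h8 : ∀ T, (M * ∏ i ∈ T, d i) % 8 = 1) : IsLOver (M : ℤ) k d Λ := by
  obtain ⟨D, L, h1, h2⟩ := h
  refine ⟨fun T => (D T : ℤ), L, fun T => ?_, h2⟩
  obtain ⟨g1, ⟨a, ha, g2⟩, g3⟩ := h1 T
  have h4 : D T % 4 = 1 := by
    have := mod8_sq g2 (h8 T)
    omega
  refine ⟨Int.squarefree_natCast.2 g1, ⟨a, ha, ?_⟩, (isL_o h4).1 g3⟩
  show (M : ℤ) * ((∏ i ∈ T, d i : ℕ) : ℤ) = (D T : ℤ) * (a : ℤ) ^ 2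
  exact_mod_cast g2

/-- the odd weights -/
theorem odd_over {M n : ℕ} {d : Fin n → ℕ} (hM : OddClass M)
    (hd : ∀ i, d i % 8 = 1 ∧ ∀ p : ℕ, p.Prime → p ∣ d i → P5 p) {k : ℕ} (hk : Odd k) :
    ∃ Λ : ℂ → ℂ, IsLOver (M : ℤ) k d Λ ∧ Differentiable ℂ Λ ∧ Λ k ≠ 0 := by
  obtain ⟨Λ, h1, h3, h4⟩ := odd_nonvan hM hd hk
  exact ⟨Λ, over_o h1 fun T => by rw [Nat.mul_mod, hM.2.1, mod8_prod (fun i => (hd i).1) T],
    h3, h4⟩

/-- the even weights -/
theorem even_over {m n : ℕ} {d : Fin n → ℕ} (hm : AllEvenWeights.InClass m)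
    (hd : ∀ i, d i ≠ 0 ∧ ∀ p : ℕ, p.Prime → p ∣ d i → P4 p) {k : ℕ} (hk0 : 0 < k) (hk : Even k) :
    ∃ Λ : ℂ → ℂ, IsLOver (-(m : ℤ)) k d Λ ∧ Differentiable ℂ Λ ∧ Λ k ≠ 0 := by
  have hG := AllEvenWeights.good_of hm hd
  choose D a ha hA he using hG
  choose L h1 h2 using fun T => AllEvenWeights.exists_L (hA T) hk0 hk
  have h4 : ∀ T, Squarefree (D T) ∧ D T % 4 = 3 := fun T => by
    obtain ⟨q0, R, -, -, hs, h⟩ := AllEvenWeights.exists_nu (hA T)
    exact ⟨hs, h⟩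
  refine ⟨fun s => ∏ T, L T s, ⟨fun T => -(D T : ℤ), L, fun T => ⟨?_, ⟨a T, ha T, ?_⟩,
    (isL_e (h4 T).2).1 (h1 T)⟩, fun s => rfl⟩, ?_, ?_⟩
  · rw [← Int.squarefree_natAbs, Int.natAbs_neg, Int.natAbs_natCast]
    exact (h4 T).1
  · have h5 := he T
    have h6 : (m : ℤ) * ((∏ i ∈ T, d i : ℕ) : ℤ) = D T * (a T : ℤ) ^ 2 := by exact_mod_cast h5
    linear_combination -h6
  · exact Differentiable.fun_finsetProd fun T _ => (h1 T).1
  · exact Finset.prod_ne_zero_iff.2 fun T _ => h2 T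


/-- the residues of the primes of the negative class -/
def R4 : Finset ℕ := (Finset.range 56).filter fun a => a % 4 = 1 ∧ (a % 7 = 3 ∨ a % 7 = 5 ∨ a % 7 = 6)

/-- the residues of the primes of the positive class -/
def R5 : Finset ℕ := (Finset.range 56).filter fun a => a % 8 = 5 ∧ (a % 7 = 3 ∨ a % 7 = 5 ∨ a % 7 = 6)

lemma mem_R4 {p : ℕ} : p % 56 ∈ R4 ↔ P4 p := by
  unfold R4 P4
  rw [Finset.mem_filter, Finset.mem_range]
  omega

lemma mem_R5 {p : ℕ} : p % 56 ∈ R5 ↔ P5 p := by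
  unfold R5 P5
  rw [Finset.mem_filter, Finset.mem_range]
  omega

/-- the multipliers -/
def Mult (R : Finset ℕ) (Z : Finset ℕ) (M s : ℕ) : Prop :=
  Squarefree s ∧ (∀ p : ℕ, p.Prime → p ∣ s → p % 56 ∈ R ∧ p ∉ Z) ∧ s % M = 1 % M

theorem cnt_gen {R : Finset ℕ} (hR : ∀ r ∈ R, r < 56 ∧ r.Coprime 56) (hne : R.Nonempty)
    (Z : Finset ℕ) {M : ℕ} (hM : 0 < M) {e : ℝ} (he : 1 - (R.card : ℝ) / 24 = e) :
    ∃ c : ℝ, 0 < c ∧ ∀ᶠ X : ℕ in atTop,
      c * (X / Real.log X ^ e) ≤ ({s : ℕ | 0 < s ∧ s ≤ X ∧ Mult R Z M s}.ncard : ℝ) := by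
  obtain ⟨c, hc, h⟩ := Pool.Agent.J4.H45.GW.count (q := 56) (by norm_num) hR hne Z hM
  refine ⟨c, hc, ?_⟩
  have ht : ((Nat.totient 56 : ℕ) : ℝ) = 24 := by
    have h2 : Nat.totient 56 = 24 := by decide
    rw [h2]
    norm_num
  rw [ht, he] at h
  filter_upwards [h] with X hX
  have hfin : {s : ℕ | 0 < s ∧ s ≤ X ∧ Mult R Z M s}.Finite :=
    (Set.finite_Icc 0 X).subset fun s hs => ⟨Nat.zero_le _, hs.2.1⟩
  rw [Set.ncard_eq_toFinset_card _ hfin]
  exact hX hfin.toFinset fun s h1 h2 h3 h4 => hfin.mem_toFinset.2 ⟨h1, h2, h3.1, h3.2, h4⟩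

theorem cnt4 (Z : Finset ℕ) (M : ℕ) (hM : 0 < M) : ∃ c : ℝ, 0 < c ∧ ∀ᶠ X : ℕ in atTop,
    c * (X / Real.log X ^ (3 / 4 : ℝ)) ≤ ({s : ℕ | 0 < s ∧ s ≤ X ∧ Mult R4 Z M s}.ncard : ℝ) := by
  have hc : R4.card = 6 := by decide
  exact cnt_gen (by decide) (by decide) Z hM (by rw [hc]; norm_num)

theorem cnt5 (Z : Finset ℕ) (M : ℕ) (hM : 0 < M) : ∃ c : ℝ, 0 < c ∧ ∀ᶠ X : ℕ in atTop,
    c * (X / Real.log X ^ (7 / 8 : ℝ)) ≤ ({s : ℕ | 0 < s ∧ s ≤ X ∧ Mult R5 Z M s}.ncard : ℝ) := by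
  have hc : R5.card = 3 := by decide
  exact cnt_gen (by decide) (by decide) Z hM (by rw [hc]; norm_num)

/-- the residues of the primes of the mixed class -/
def R3 : Finset ℕ := (Finset.range 56).filter fun a =>
  (a % 8 = 1 ∧ (a % 7 = 1 ∨ a % 7 = 2 ∨ a % 7 = 4)) ∨ (a % 8 = 5 ∧ (a % 7 = 3 ∨ a % 7 = 5 ∨ a % 7 = 6))

lemma mem_R3 {p : ℕ} : p % 56 ∈ R3 ↔ (p % 8 = 1 ∧ (p % 7 = 1 ∨ p % 7 = 2 ∨ p % 7 = 4)) ∨
    (p % 8 = 5 ∧ (p % 7 = 3 ∨ p % 7 = 5 ∨ p % 7 = 6)) := by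
  unfold R3
  rw [Finset.mem_filter, Finset.mem_range]
  omega

open Pool.Agent.Results.MP_787500_nt.AllWeightsMultiquadraticX49 (Adm AtLeast prop) in
open scoped Classical in
theorem many_mixed {n : ℕ} {d : Fin n → ℕ} (hI : Ind d) (hd : ∀ i, Mixed (d i)) :
    Many (3 / 4) fun D => (∃ m : ℕ, Mixed m ∧ D = (m : ℤ)) ∧ ∀ k : ℕ, Odd k → NonzeroOver D k d := by
  have h1 := AllOddWeights.result.2.1 n 1 d ⟨⟨squarefree_one, rfl, fun p hp hd =>
    absurd (Nat.dvd_one.1 hd) hp.ne_one⟩, hd, hI⟩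
  have hc0 : 0 < Pool.Agent.Results.MP_787500_nt.AllWeightsMultiquadraticX49.c := by
    have := AllOddWeights.result.2.2.2.1
    linarith
  set x : ℝ := Pool.Agent.Results.MP_787500_nt.AllWeightsMultiquadraticX49.c ^ 2 ^ n with hx
  have hx0 : 0 < x := by positivity
  have h2 := h1 (x / 2) (by linarith)
  have hR : R3.card = 6 := by decide
  obtain ⟨c, hc, h3⟩ := cnt_gen (R := R3) (by decide) (by decide) ∅ (M := 8) (by norm_num)
    (e := 3 / 4) (by rw [hR]; norm_num)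
  refine ⟨x / 2 * c, by positivity, ?_⟩
  filter_upwards [h2, h3] with X hX hX2
  unfold prop at hX
  set A := (Finset.Icc 1 X).filter fun D : ℕ => Adm D with hA
  set B := (Finset.Icc 1 X).filter fun D : ℕ => Adm D ∧ AllOddWeights.OrderFormula (1 * D) d with hB
  have hA1 : {s : ℕ | 0 < s ∧ s ≤ X ∧ Mult R3 ∅ 8 s}.ncard ≤ A.card := by
    rw [← Set.ncard_coe_finset]
    refine Set.ncard_le_ncard ?_ A.finite_toSet
    rintro s ⟨g1, g2, g3, g4, g5⟩
    rw [Finset.mem_coe, hA, Finset.mem_filter, Finset.mem_Icc]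
    exact ⟨⟨g1, g2⟩, g3, g5, fun p hp hd => mem_R3.1 (g4 p hp hd).1⟩
  have hA0 : (0 : ℝ) < A.card := by
    by_contra h
    have h0 : (A.card : ℝ) = 0 := le_antisymm (not_lt.1 h) (Nat.cast_nonneg _)
    rw [h0, div_zero] at hX
    linarith
  rw [lt_div_iff₀ hA0] at hX
  have hB1 : B.card ≤ {D : ℤ | ((∃ m : ℕ, Mixed m ∧ D = (m : ℤ)) ∧
      ∀ k : ℕ, Odd k → NonzeroOver D k d) ∧ D.natAbs ≤ X}.ncard := by
    rw [← Set.ncard_coe_finset]
    have hfin : {D : ℤ | ((∃ m : ℕ, Mixed m ∧ D = (m : ℤ)) ∧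
        ∀ k : ℕ, Odd k → NonzeroOver D k d) ∧ D.natAbs ≤ X}.Finite := by
      refine (Set.finite_Icc (-(X : ℤ)) (X : ℤ)).subset fun D hD => ?_
      have := hD.2
      rw [Set.mem_Icc]
      omega
    refine Set.ncard_le_ncard_of_injOn (fun s : ℕ => (s : ℤ)) ?_ ?_ hfin
    · intro s hs
      rw [Finset.mem_coe, hB, Finset.mem_filter, Finset.mem_Icc] at hs
      obtain ⟨⟨g1, g2⟩, g3, g4⟩ := hs
      refine ⟨⟨⟨s, g3, rfl⟩, fun k hk => ?_⟩, by simpa using g2⟩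
      obtain ⟨Λ, f1, f2, f3⟩ := g4.1 k hk
      rw [one_mul] at f1
      exact ⟨Λ, over_o f1 (fun T => by rw [Nat.mul_mod, g3.2.1, mod8_prod (fun i => (hd i).2.1) T]),
        f2, f3⟩
    · intro a _ b _ hab
      have h5 : (a : ℤ) = (b : ℤ) := hab
      exact_mod_cast h5
  calc x / 2 * c * ((X : ℝ) / Real.log X ^ (3 / 4 : ℝ)) = x / 2 * (c * (X / Real.log X ^ (3 / 4 : ℝ))) := by
        ring
    _ ≤ x / 2 * A.card := by
        apply mul_le_mul_of_nonneg_left _ (by positivity)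
        exact hX2.trans (by exact_mod_cast hA1)
    _ ≤ B.card := hX.le
    _ ≤ _ := by exact_mod_cast hB1

/-- the modulus -/
def md (S : Finset ℕ) : ℕ := 8 * ∏ p ∈ S, p

lemma md_pos {S : Finset ℕ} (hS : ∀ p ∈ S, p.Prime) : 0 < md S :=
  Nat.mul_pos (by norm_num) (Finset.prod_pos fun p hp => (hS p hp).pos)

lemma same_of {S : Finset ℕ} {s : ℕ} (hs : s % md S = 1 % md S) {p : ℕ} (hp : p ∈ S)
    {D D' : ℤ} (hD : D' = D * (s : ℤ)) : SameAt p D D' := by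
  intro _
  obtain ⟨z, hz, hz2⟩ := sq_padic (p := p) (M := md S) (dvd_mul_right _ _)
    ((Finset.dvd_prod_of_mem _ hp).mul_left _) hs
  refine ⟨z, hz, ?_⟩
  rw [hD, ← hz2]
  push_cast
  rfl

lemma coprime_of {m s : ℕ} (hs : ∀ p : ℕ, p.Prime → p ∣ s → p ∉ m.primeFactors) (hm : m ≠ 0) :
    Nat.Coprime m s := by
  refine Nat.coprime_of_dvd fun p hp h1 h2 => ?_
  exact hs p hp h2 (Nat.mem_primeFactors.2 ⟨hp, h1, hm⟩)

theorem many_neg {D : ℤ} (hD : NegClass D) (S : Finset ℕ) (hS : ∀ p ∈ S, p.Prime) :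
    Many (3 / 4) fun D' => NegClass D' ∧ ∀ p ∈ S, SameAt p D D' := by
  obtain ⟨q, r, hq, h8, hqi, hr, hpr, rfl⟩ := hD
  have hcl : AllEvenWeights.InClass (q * r) := ⟨q, r, hq, h8, hqi, hr, hpr, rfl⟩
  have hne : q * r ≠ 0 := AllEvenWeights.class_ne hcl
  obtain ⟨c, hc, h⟩ := cnt4 (q * r).primeFactors (md S) (md_pos hS)
  refine transfer (m0 := q * r) (Nat.pos_of_ne_zero hne) (G := Mult R4 (q * r).primeFactors (md S))
    (-1) (by norm_num) (fun s _ hG => ⟨?_, fun p hp => ?_⟩) hc (by norm_num) h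
  · obtain ⟨h1, h2, h3⟩ := hG
    have h4 := even_mul hcl h1 (fun p hp hd => mem_R4.1 (h2 p hp hd).1)
      (coprime_of (fun p hp hd => (h2 p hp hd).2) hne)
    obtain ⟨q', r', g1, g2, g3, g4, g5, g6⟩ := h4
    refine ⟨q', r', g1, g2, g3, g4, g5, ?_⟩
    rw [g6]
    ring
  · refine same_of hG.2.2 hp ?_
    push_cast
    ring

theorem many_pos {D : ℤ} (hD : PosClass D) (S : Finset ℕ) (hS : ∀ p ∈ S, p.Prime) :
    Many (7 / 8) fun D' => PosClass D' ∧ ∀ p ∈ S, SameAt p D D' := by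
  obtain ⟨m, h1, h8, hp, rfl⟩ := hD
  have hcl : OddClass m := ⟨h1, h8, hp⟩
  have hne : m ≠ 0 := h1.ne_zero
  obtain ⟨c, hc, h⟩ := cnt5 m.primeFactors (md S) (md_pos hS)
  refine transfer (m0 := m) (Nat.pos_of_ne_zero hne) (G := Mult R5 m.primeFactors (md S))
    1 (by norm_num) (fun s _ hG => ⟨?_, fun p hp => ?_⟩) hc (by norm_num) h
  · obtain ⟨h1, h2, h3⟩ := hG
    have hs8 : s % 8 = 1 := by
      have h5 : s ≡ 1 [MOD 8] := Nat.ModEq.of_dvd (dvd_mul_right 8 _) h3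
      exact h5
    have h4 := hcl.mul h1 hs8 (fun p hp hd => mem_R5.1 (h2 p hp hd).1)
      (coprime_of (fun p hp hd => (h2 p hp hd).2) hne)
    exact ⟨m * s, h4.1, h4.2.1, h4.2.2, by ring⟩
  · refine same_of hG.2.2 hp ?_
    push_cast
    ring

end proof

/-- **Twists with nonzero central values in all weights.** -/
theorem result :
    (∀ (n : ℕ) (d : Fin n → ℕ), Ind d →
      (∀ i, d i ≠ 0 ∧ ∀ p : ℕ, p.Prime → p ∣ d i → p % 4 = 1 ∧ Inert p) →
      ∀ D : ℤ, NegClass D → ∀ k : ℕ, 0 < k → Even k → NonzeroOver D k d) ∧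
    (∀ (n : ℕ) (d : Fin n → ℕ), Ind d →
      (∀ i, d i % 8 = 1 ∧ ∀ p : ℕ, p.Prime → p ∣ d i → p % 8 = 5 ∧ Inert p) →
      ∀ D : ℤ, PosClass D → ∀ k : ℕ, Odd k → NonzeroOver D k d) ∧
    (∀ D : ℤ, NegClass D → ∀ S : Finset ℕ, (∀ p ∈ S, p.Prime) →
      Many (3 / 4) fun D' => NegClass D' ∧ ∀ p ∈ S, SameAt p D D') ∧
    (∀ D : ℤ, PosClass D → ∀ S : Finset ℕ, (∀ p ∈ S, p.Prime) →
      Many (7 / 8) fun D' => PosClass D' ∧ ∀ p ∈ S, SameAt p D D') ∧
    ∀ (n : ℕ) (d : Fin n → ℕ), Ind d → (∀ i, Mixed (d i)) →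
      Many (3 / 4) fun D => (∃ m : ℕ, Mixed m ∧ D = (m : ℤ)) ∧
        ∀ k : ℕ, Odd k → NonzeroOver D k d := by
  refine ⟨fun n d _ hd D hD k hk0 hk => ?_, fun n d _ hd D hD k hk => ?_,
    fun D hD S hS => many_neg hD S hS, fun D hD S hS => many_pos hD S hS,
    fun n d hI hd => many_mixed hI hd⟩
  · obtain ⟨q, r, hq, h8, hqi, hr, hpr, rfl⟩ := hD
    exact even_over ⟨q, r, hq, h8, hqi, hr, hpr, rfl⟩ hd hk0 hk
  · obtain ⟨m, h1, h8, hp, rfl⟩ := hD
    exact odd_over ⟨h1, h8, hp⟩ hd hk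

end Pool.Agent.Results.MP_50bb2e_nt.AllWeightsTwists
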