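import Pool.Agent.K4H50.ZN.Fin

/-!
# Orders of vanishing and zeros near the centre in families of quadratic twists

`E_d : y² = x³ + a d² x + b d³` (isomorphic to `d y² = x³ + a x + b`), `d` squarefree (positive or
negative), are the quadratic twists of `E : y² = x³ + a x + b`; the central point of `L(E_d, s)` is
`s = 1`.  Unconditionally for all `E` with `j`-invariant `0` or `1728` and for all quadratic twists of
`X₀(11)` and `X₀(14)`, and for every elliptic curve over `ℚ` whose quadratic twists are modular, we
bound the number of zeros in a disc about the centre; `n_d(η)` is the number of zeros with
`|s - 1| ≤ η`, with multiplicities, plus the rank of `E_d(ℚ)`, so that `n_d(0)` is the order of vanishing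
plus the rank.  With the twists ordered by the conductor of the quadratic character, for `0 ≤ η ≤ 1/5`:

* `∑ exp(c n_d(η)) ≤ C X^(1 + 4 η) (log X)^A` over all `d` of conductor at most `X`;
* over every subset of size at least `X / (log X)^B`, the mean of `n_d(η)^k` is
  `O((1 + log log X + η log X)^k)`;
* `n_d(η) ≤ K (1 + log log X + η log X)` for all `η` at once, for all but `O(X / (log X)^B)` of the `d`;
* the characters with prescribed components at a finite set `S` of places (the real place and primes)
  have positive lower density, and over them the mean of the `k`-th power of the order of vanishing (plus
  the rank) is at most `C (log log X)^k` for large `X`, with `C` independent of the local conditions.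

For `S` containing the bad primes and `∞` the root number is constant on such a class, and for any `S`
the set `𝒜` of the problem (prescribed components and prescribed root number) is a finite union of such
classes: its members have order of vanishing `O(log log X)` on average.

The proof: the large sieve and the mollified moments of the starting library (project `QT` of `Y19`,
there for the order of vanishing at the centre), Jensen's inequality in the form of a mean value
inequality on circles about `1/2 + δ` with all zeros of the small disc divided out, `δ` being
proportional to `r / log X` for the `d` with `r` zeros; a large value of `r / (η log X)` is needed, and for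
the other `r` the trivial bound suffices.
-/

set_option autoImplicit false

namespace Pool.Agent.Results.MP_50bb2e_nt.CentralZerosOfTwists

open Pool.Agent.Y19.QT Pool.Agent.K4H50.ZN

theorem result : (∀ a b : ℤ, Fam a b → Law a b) ∧
    ∀ a b : ℤ, 4 * a ^ 3 + 27 * b ^ 2 ≠ 0 → TwistsModular a b → Law a b :=
  ⟨fun _ _ h => law_of h.disc h.data.1 h.data.2,
    fun a b hab h => law_of hab (hasTwists_of a b hab h) (exists_LFun a b hab h)⟩

end Pool.Agent.Results.MP_50bb2e_nt.CentralZerosOfTwists
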