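import Pool.Agent.J4.H24.QG.E2

/-!
# Quadratic twists of the level 27 form over quadratic fields

`k` is a quadratic field, `E` is the curve `y² + y = x³` (conductor 27 over `ℚ`) and `π` is the
base change to `k` of the form of `E`.  The hypotheses on `k`: it contains a square root of `D` or
of `-3 D`, where `D ≠ 1` is a squarefree integer congruent to `1` modulo `4` and `2` is not a cube
modulo any prime divisor of `D` (for example `D = 13, -7, -19, 37, 61, -91`; infinitely many real
and infinitely many imaginary fields).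

The class: the quadratic characters `χ` of `k` that are unramified at every place modulo which `2`
is a cube.  Theorem: every character of the class has `L(π ⊗ χ, s)` nonzero at the centre, and the
characters of the class that have the components of a given one at a given finite set of places and
at all the real places are at least `X / (log X)^(1 - ε)` in number up to conductor norm `X`.
-/

set_option autoImplicit false

open NumberField IsDedekindDomain

namespace Pool.Agent.Results.MP_50bb2e_nt.QuadraticFieldsLevel27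

section
variable {k : Type} [Field k] [NumberField k]

/-- `α` is the square of a nonzero element of the completion `k_v`: some `α x²` with `x` in `k` is
congruent to `1` modulo `4 v` (by Hensel's lemma such an element is a square in `k_v`, and `k` is
dense in `k_v`) -/
def Sq (v : HeightOneSpectrum (𝓞 k)) (α : k) : Prop :=
  ∃ x : k, v.valuation k (α * x ^ 2 - 1) < v.valuation k 4

/-- the extension `k_v(√α)` of `k_v` is unramified: some `α x²` with `x` in `k` is a unit at `v`
congruent to `1` modulo `4` -/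
def Ur (v : HeightOneSpectrum (𝓞 k)) (α : k) : Prop :=
  ∃ x : k, v.valuation k (α * x ^ 2) = 1 ∧ v.valuation k (α * x ^ 2 - 1) ≤ v.valuation k 4

open Classical in
/-- the value at `v` of the quadratic character `χ_α` of `k` that belongs to `k(√α) / k`: `1` if `v`
splits, `-1` if `v` is inert and `0` if `v` is ramified -/
noncomputable def chi (α : k) (v : HeightOneSpectrum (𝓞 k)) : ℤ :=
  if Sq v α then 1 else if Ur v α then -1 else 0

/-- the product of the norms of the places at which `χ_α` is ramified; this is the absolute norm of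
the conductor of `χ_α` if `χ_α` is unramified at the places above `2` -/
noncomputable def conductorNorm (α : k) : ℕ :=
  ∏ᶠ v ∈ {v : HeightOneSpectrum (𝓞 k) | ¬ Ur v α}, Ideal.absNorm v.asIdeal

/-- the number of the affine points of `y² + y = x³` over the residue field of `v` -/
noncomputable def points (v : HeightOneSpectrum (𝓞 k)) : ℕ :=
  Nat.card {z : (𝓞 k ⧸ v.asIdeal) × (𝓞 k ⧸ v.asIdeal) // z.2 ^ 2 + z.2 = z.1 ^ 3}

open Classical in
/-- the Euler factor at `v` of `L(π ⊗ χ, s)`, `e` being the value of `χ` at `v`; the eigenvalue of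
`π` at a place `v` prime to `3` is `N(v) - points v`, and at the places above `3` the factor is `1` -/
noncomputable def factor (v : HeightOneSpectrum (𝓞 k)) (e : ℤ) (s : ℂ) : ℂ :=
  if (3 : 𝓞 k) ∈ v.asIdeal then 1 else
    (1 - ((Ideal.absNorm v.asIdeal : ℂ) - points v) * e * (Ideal.absNorm v.asIdeal : ℂ) ^ (-s) +
      (e : ℂ) ^ 2 * (Ideal.absNorm v.asIdeal : ℂ) ^ (1 - 2 * s))⁻¹

/-- `L(π ⊗ χ_α, s)`, in the normalisation with centre `s = 1`: the Euler product has a meromorphic
continuation that is analytic and nonzero at the centre -/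
def Nonvanishing (α : k) : Prop :=
  ∃ G : ℂ → ℂ, MeromorphicOn G Set.univ ∧
    (∀ s : ℂ, 3 / 2 < s.re →
      HasProd (fun v : HeightOneSpectrum (𝓞 k) => factor v (chi α v) s) (G s)) ∧
    AnalyticAt ℂ G 1 ∧ G 1 ≠ 0

/-- the class: `χ_α` is unramified at every place modulo which `2` is a cube (among them are the
places above `2` and `3`) -/
def InClass (α : k) : Prop :=
  α ≠ 0 ∧ ∀ v : HeightOneSpectrum (𝓞 k), (∃ c : 𝓞 k, c ^ 3 - 2 ∈ v.asIdeal) → Ur v α

/-- `χ_α` is in the class and has the same components as `χ_β` at the places of `S` and at all the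
archimedean places -/
def Agrees (S : Finset (HeightOneSpectrum (𝓞 k))) (β α : k) : Prop :=
  InClass α ∧ (∀ v ∈ S, Sq v (α * β)) ∧ ∀ σ : k →+* ℝ, 0 < σ (α * β)

end

/-- **Every character of the class has nonvanishing, and the characters of the class with prescribed
components at finitely many places and at the real places are at least `X / (log X)^(1 - ε)` in
number up to conductor norm `X`.** -/
theorem result {k : Type} [Field k] [NumberField k] (h2 : Module.finrank ℚ k = 2)
    {D : ℤ} (h4 : D % 4 = 1) (h1 : D ≠ 1) (hsf : Squarefree D)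
    (hcube : ∀ p : ℕ, p.Prime → (p : ℤ) ∣ D → ∀ x : ZMod p, x ^ 3 ≠ 2)
    {a : k} (ha : a ^ 2 = (D : k) ∨ a ^ 2 = -3 * (D : k)) :
    ∃ ε : ℝ, 0 < ε ∧ ε < 1 ∧
      ∀ (S : Finset (HeightOneSpectrum (𝓞 k))) (β : k), InClass β →
        (∀ α : k, Agrees S β α → Nonvanishing α) ∧
        ∃ X₀ : ℕ, ∀ X : ℕ, X₀ ≤ X → ∃ C : Finset (HeightOneSpectrum (𝓞 k) → ℤ),
          (X : ℝ) / Real.log X ^ (1 - ε) ≤ C.card ∧
          ∀ χ ∈ C, ∃ α : k, Agrees S β α ∧ conductorNorm α ≤ X ∧ χ = chi α := by
  have hG : Pool.Agent.J4.H24.QG.GD D := ⟨h4, h1, hsf, hcube⟩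
  obtain ⟨A, hA, hA'⟩ : ∃ A : ℚ, a ^ 2 = algebraMap ℚ k A ∧ ¬ IsSquare A := by
    rcases ha with ha | ha
    · exact ⟨((D : ℤ) : ℚ), by rw [ha]; simp, fun h => hG.not_sq (Rat.isSquare_intCast_iff.1 h)⟩
    · exact ⟨(((-3 * D : ℤ)) : ℚ), by rw [ha]; simp,
        fun h => hG.not_sq3 (Rat.isSquare_intCast_iff.1 h)⟩
  have hna : ∀ r : ℚ, algebraMap ℚ k r ≠ a := by
    rintro r hr
    apply hA'
    refine ⟨r, (algebraMap ℚ k).injective ?_⟩
    rw [← hA, ← hr, map_mul, pow_two]
  have hns := hG.ns h2 ha
  obtain ⟨ε, hε, hε1, h⟩ := Pool.Agent.J4.H24.QG.many_chars h2 hA hna hns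
  refine ⟨ε, hε, hε1, fun S β hβ => ⟨fun α hα => ?_, ?_⟩⟩
  · obtain ⟨F0, N, i1, i2, i3, i4, i5, i6, i7, k1, k2, k3⟩ :=
      Pool.Agent.J4.H24.QG.exists_N hG h2 ha
    exact Pool.Agent.J4.H24.QG.nonvan (F0 := F0) (N := N) k1 k2 k3 hns hα.1.1 hα.1.2
  · obtain ⟨X₀, hX⟩ := h S β hβ
    refine ⟨X₀, fun X hX' => ?_⟩
    obtain ⟨C, hC, hC'⟩ := hX X hX'
    refine ⟨C, hC, fun χ hχ => ?_⟩
    obtain ⟨α, hα, hc, he⟩ := hC' χ hχ
    exact ⟨α, ⟨hα.cls, hα.loc, hα.pos⟩, hc, he⟩

end Pool.Agent.Results.MP_50bb2e_nt.QuadraticFieldsLevel27
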