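import Pool.Agent.K4H50.ZN.Fin
import Pool.Agent.J4.H74.TT.F

/-!
# Orders of vanishing, ranks and zeros near the centre for the quadratic twists at typical integers

`E_s : y² = x³ + a s² x + b s³`, `s` squarefree (positive or negative), are the quadratic twists of
`E : y² = x³ + a x + b`.  Unconditionally for all `E` with `j`-invariant `0` or `1728` and for all quadratic twists
of `X₀(11)` and `X₀(14)`, and for every elliptic curve over `ℚ` whose quadratic twists are modular, we bound for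
individual twists the number `n_s(η)` of zeros of `L(E_s, z)` with `|z - 1| ≤ η`, with multiplicities, plus the rank
of `E_s(ℚ)`; `n_s(0)` is the order of vanishing plus the rank.  For an integer `d ≠ 0` with squarefree part `s`
(so `d = s m²` and `E_d ≅ E_s`) and `0 ≤ η ≤ 1/5`:

1. For almost all `α ∈ ℝ^k` and ALL `d` with `|d|` large:
   `n_s(η) ≤ K (log log |d| + log (1 + |d| δ^k) + η log |d|)`, `δ = max ‖d α_i‖`.  By Dirichlet's theorem
   `|d| δ^k ≤ 1` for infinitely many `d` (for `k = 1` for all denominators of convergents of `α`).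
2. For almost all `x > 1`, for all large `n` and ALL `d ≠ 0`:
   `n_s(η) ≤ K (log v_n + log (1 + ||d| - x^(v_n)|) + η log |d|)`, where `v_n ≥ 1` are given exponents such that the
   sum of the `v_n^(-t)` converges, for instance `v_n = n`.  So `n_s(0) = O(log log |d|)` for all `d` with
   `||d| - x^n| ≤ n^B`, `n` large.

The constant `K` depends only on `E` in (1) and only on `E` and `t` in (2).

The proof: the exponential moment `∑ exp(c n_s(η)) ≤ C X^(1 + 4 η) (log X)^A` of `CentralZerosOfTwists`, taken over a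
grid of values of `η`, gives weights `g(q)` with averages `O((log X)^(A + 1))` which bound `n_s(η)` for all `d = ± q`
and all `η`; the Borel–Cantelli lemma is applied to the sets of all `α` (all `x`) for which `q` is nearer than the
weight of `q` allows.
-/

set_option autoImplicit false

namespace Pool.Agent.Results.MP_50bb2e_nt.TwistsAtTypicalNumbers

open MeasureTheory Pool.Agent.Y19.QT Pool.Agent.K4H50.ZN

/-- The two statements for the quadratic twists `E_s : y² = x³ + a s² x + b s³` of `y² = x³ + a x + b`; `F s` is the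
`L`-function of `E_s` and `nr (a s²) (b s³) (F s) η` is the number of its zeros with `|z - 1| ≤ η`, with
multiplicities, plus the rank of `E_s(ℚ)`; `s` is the squarefree part of the integer `d ≠ 0`. -/
def Law (a b : ℤ) : Prop :=
  (∀ s : ℤ, Squarefree s → ∃! F : ℂ → ℂ, IsLFun (a * s ^ 2) (b * s ^ 3) F) ∧
  ∀ F : ℤ → ℂ → ℂ, (∀ s : ℤ, Squarefree s → IsLFun (a * s ^ 2) (b * s ^ 3) (F s)) →
    (∀ s : ℤ, Squarefree s → nz (F s) (1 / 5) ≠ ⊤ ∧ Module.Finite ℤ (EQ (a * s ^ 2) (b * s ^ 3))) ∧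
    (∃ K : ℝ, ∀ k : ℕ, 1 ≤ k → ∀ᵐ α : Fin k → ℝ, ∃ d₀ : ℕ, ∀ d s m : ℤ, d = s * m ^ 2 → Squarefree s → m ≠ 0 →
      d₀ ≤ d.natAbs → ∀ (p : Fin k → ℤ) (δ η : ℝ), (∀ i, |(d : ℝ) * α i - p i| ≤ δ) → 0 ≤ η → η ≤ 1 / 5 →
        nr (a * s ^ 2) (b * s ^ 3) (F s) η ≤
          K * (Real.log (Real.log |(d : ℝ)|) + Real.log (1 + |(d : ℝ)| * δ ^ k) + η * Real.log |(d : ℝ)|)) ∧
    ∀ t : ℝ, 0 < t → ∃ K : ℝ, ∀ v : ℕ → ℝ, (∀ n, 1 ≤ v n) → (Summable fun n => (v n) ^ (-t)) →
      ∀ᵐ x : ℝ, 1 < x → ∃ n₀ : ℕ, ∀ n : ℕ, n₀ ≤ n → ∀ d s m : ℤ, d = s * m ^ 2 → Squarefree s → m ≠ 0 →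
        ∀ η : ℝ, 0 ≤ η → η ≤ 1 / 5 →
          nr (a * s ^ 2) (b * s ^ 3) (F s) η ≤
            K * (Real.log (v n) + Real.log (1 + |(|(d : ℝ)| - x ^ (v n))|) + η * Real.log |(d : ℝ)|)

lemma law_of_law {a b : ℤ} (h : Pool.Agent.K4H50.ZN.Law a b) : Law a b := by
  obtain ⟨h1, h2⟩ := h
  refine ⟨fun d hd => (h1 d hd).2, fun F hF => ?_⟩
  obtain ⟨h3, ⟨C, c, A, hc, hmom⟩, -⟩ := h2 F hF
  have hM : Pool.Agent.J4.H74.TT.Mom tw Squarefree (fun d η => nr (a * d ^ 2) (b * d ^ 3) (F d) η) C c A := by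
    refine ⟨fun X d hd hX => mem_tw.2 ⟨hd, (cond_le d).trans hX⟩, fun d η η' hd h0 hη h5 => ?_, hc, hmom⟩
    have hne : nz (F d) η' ≠ ⊤ := by
      refine ne_top_of_le_ne_top (h3 d hd).1 ?_
      unfold nz
      refine ENNReal.tsum_le_tsum fun ρ => ?_
      split_ifs with e1 e2
      · exact le_rfl
      · exact absurd (e1.trans h5) e2
      · exact zero_le
      · exact le_rfl
    have hle : nz (F d) η ≤ nz (F d) η' := by
      unfold nz
      refine ENNReal.tsum_le_tsum fun ρ => ?_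
      split_ifs with e1 e2
      · exact le_rfl
      · exact absurd (e1.trans hη) e2
      · exact zero_le
      · exact le_rfl
    have := ENNReal.toReal_mono hne hle
    show nr (a * d ^ 2) (b * d ^ 3) (F d) η ≤ nr (a * d ^ 2) (b * d ^ 3) (F d) η'
    unfold nr
    linarith
  have hA := hM.all
  refine ⟨fun d hd => ⟨(h3 d hd).1, (h1 d hd).1⟩, ?_, fun t ht => ?_⟩
  · obtain ⟨K, hK⟩ := Pool.Agent.J4.H74.TT.main1 hA
    refine ⟨K, fun k hk => ?_⟩
    filter_upwards [hK k hk] with α hα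
    obtain ⟨d₀, hd₀⟩ := hα
    refine ⟨d₀, fun d s m hd hs hm hdd p δ η hp h0 h5 => ?_⟩
    have hne : d ≠ 0 := by rw [hd]; exact mul_ne_zero hs.ne_zero (pow_ne_zero 2 hm)
    have h4 := hd₀ d hdd hne p δ η hp h0 h5
    have h5' : Pool.Agent.J4.H74.TT.sf d = s := by rw [hd]; exact Pool.Agent.J4.H74.TT.sf_mul hs hm
    simp only [h5'] at h4
    exact h4
  · obtain ⟨K, hK⟩ := Pool.Agent.J4.H74.TT.main2 hA t ht
    refine ⟨K, fun v hv hvt => ?_⟩
    filter_upwards [hK v hv hvt] with x hx hx1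
    obtain ⟨n₀, hn₀⟩ := hx hx1
    refine ⟨n₀, fun n hn d s m hd hs hm η h0 h5 => ?_⟩
    have hne : d ≠ 0 := by rw [hd]; exact mul_ne_zero hs.ne_zero (pow_ne_zero 2 hm)
    have h4 := hn₀ n hn d hne hne η h0 h5
    have h5' : Pool.Agent.J4.H74.TT.sf d = s := by rw [hd]; exact Pool.Agent.J4.H74.TT.sf_mul hs hm
    simp only [h5'] at h4
    exact h4

/-- **Orders of vanishing, ranks and zeros near the centre at typical integers.** -/
theorem result : (∀ a b : ℤ, Fam a b → Law a b) ∧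
    ∀ a b : ℤ, 4 * a ^ 3 + 27 * b ^ 2 ≠ 0 → TwistsModular a b → Law a b :=
  ⟨fun _ _ h => law_of_law (law_of h.disc h.data.1 h.data.2),
    fun a b hab h => law_of_law (law_of hab (hasTwists_of a b hab h) (exists_LFun a b hab h))⟩

end Pool.Agent.Results.MP_50bb2e_nt.TwistsAtTypicalNumbers
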